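import Pool.Agent.H25.PN.CmpL
import Pool.Agent.H25.PN.ScaB
import Pool.Agent.H25.Kin.Char
import Pool.Agent.H85.DG.ScaD

/-!
# Velocity scaling of the Boltzmann equation (MP_c15324_an)

`boltzQ (g (λ ·)) v = λ^(-(d+γ)) boltzQ g (λ v)`; if `f` is a classical solution then `f(t/λ, x, λ v)` is one for the kernel `λ^(d+γ-1) b`.
-/

set_option autoImplicit false

open MeasureTheory Set Filter Topology Pool.Agent.H25.Kin Pool.Agent.H48.PL

namespace Pool.Agent.H48.VS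

variable {d : ℕ} {γ s : ℝ} {b : ℝ → ℝ}

lemma nsq_smul (l : ℝ) (v : Vec d) : nsq (l • v) = l ^ 2 * nsq v := by
  unfold nsq
  rw [Finset.mul_sum]
  refine Finset.sum_congr rfl fun i _ => ?_
  show (l * v i) ^ 2 = l ^ 2 * v i ^ 2
  ring

lemma len_smul' {l : ℝ} (hl : 0 ≤ l) (v : Vec d) : len (l • v) = l * len v := by
  unfold len
  rw [nsq_smul, Real.sqrt_mul (sq_nonneg l), Real.sqrt_sq hl]

lemma dot_smul' (l : ℝ) (u v : Vec d) : dot u (l • v) = l * dot u v := by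
  unfold dot
  rw [Finset.mul_sum]
  refine Finset.sum_congr rfl fun i _ => ?_
  show u i * (l * v i) = l * (u i * v i)
  ring

lemma post_smul {l : ℝ} (hl : 0 ≤ l) (v w σ : Vec d) : post (l • v) (l • w) σ = l • post v w σ := by
  unfold post
  rw [← smul_sub, len_smul' hl]
  funext i
  simp only [Pi.add_apply, Pi.smul_apply, smul_eq_mul]
  ring

lemma post'_smul {l : ℝ} (hl : 0 ≤ l) (v w σ : Vec d) : post' (l • v) (l • w) σ = l • post' v w σ := by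
  unfold post'
  rw [← smul_sub, len_smul' hl]
  funext i
  simp only [Pi.add_apply, Pi.sub_apply, Pi.smul_apply, smul_eq_mul]
  ring

lemma cosTh_smul {l : ℝ} (hl : 0 < l) (v w σ : Vec d) : cosTh (l • v) (l • w) σ = cosTh v w σ := by
  unfold cosTh
  rw [← smul_sub, dot_smul', len_smul' hl.le, mul_div_mul_left _ _ hl.ne']

lemma kerB_smul {l : ℝ} (hl : 0 < l) (ε : ℝ) (v w σ : Vec d) :
    kerB γ b ε (l • v) (l • w) σ = l ^ γ * kerB γ b ε v w σ := by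
  unfold kerB
  rw [cosTh_smul hl, ← smul_sub, len_smul' hl.le, Real.mul_rpow hl.le (len_nonneg _)]
  split_ifs
  · ring
  · ring

lemma boltzCut_smul {l : ℝ} (hl : 0 < l) (ε : ℝ) (g : Vec d → ℝ) (v : Vec d) :
    boltzCut γ b ε (fun u => g (l • u)) v = l ^ (-((d : ℝ) + γ)) * boltzCut γ b ε g (l • v) := by
  have hγ : l ^ γ ≠ 0 := (Real.rpow_pos_of_pos hl _).ne'
  have h1 : ∀ w : Vec d, (∫ σ : Vec d, kerB γ b ε v w σ *
      (g (l • post' v w σ) * g (l • post v w σ) - g (l • w) * g (l • v)) ∂(surf d)) = (l ^ γ)⁻¹ *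
      ∫ σ : Vec d, kerB γ b ε (l • v) (l • w) σ *
        (g (post' (l • v) (l • w) σ) * g (post (l • v) (l • w) σ) - g (l • w) * g (l • v)) ∂(surf d) := by
    intro w
    rw [← integral_const_mul]
    refine integral_congr_ae (Eventually.of_forall fun σ => ?_)
    show _ = (l ^ γ)⁻¹ * _
    rw [post_smul hl.le, post'_smul hl.le, kerB_smul hl]
    field_simp
  obtain ⟨G, hG⟩ : ∃ G : Vec d → ℝ, G = fun w => ∫ σ : Vec d, kerB γ b ε (l • v) w σ *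
      (g (post' (l • v) w σ) * g (post (l • v) w σ) - g w * g (l • v)) ∂(surf d) := ⟨_, rfl⟩
  have h2 : boltzCut γ b ε (fun u => g (l • u)) v = ∫ w : Vec d, (l ^ γ)⁻¹ * G (l • w) := by
    unfold boltzCut
    refine integral_congr_ae (Eventually.of_forall fun w => ?_)
    rw [hG]
    exact h1 w
  have h3 : boltzCut γ b ε g (l • v) = ∫ w : Vec d, G w := by
    unfold boltzCut
    rw [hG]
  rw [h2, h3, integral_const_mul, Measure.integral_comp_smul volume G l, Module.finrank_fin_fun,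
    smul_eq_mul, abs_of_pos (by positivity), Real.rpow_neg hl.le, Real.rpow_add hl, Real.rpow_natCast,
    mul_inv]
  ring

theorem boltzQ_smul (hd : 2 ≤ d) (hs : 0 < s) (hs1 : s < 1) (h0 : 0 ≤ γ + 2 * s) (h2 : γ + 2 * s ≤ 2)
    (hb : IsKernel d s b) {l : ℝ} (hl : 0 < l) {g : Vec d → ℝ} (hg : Nice g) (v : Vec d) :
    boltzQ γ b (fun u => g (l • u)) v = l ^ (-((d : ℝ) + γ)) * boltzQ γ b g (l • v) := by
  obtain ⟨C, Ca, H⟩ := exists_hyp (γ := γ) hd hs hs1 h0 h2 hb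
  have h := (boltz_tendsto H hg (l • v)).const_mul (l ^ (-((d : ℝ) + γ)))
  have h3 : boltzQ γ b (fun u => g (l • u)) v =
      limUnder (𝓝[>] (0 : ℝ)) fun ε => l ^ (-((d : ℝ) + γ)) * boltzCut γ b ε g (l • v) := by
    unfold boltzQ
    congr 1
    funext ε
    exact boltzCut_smul hl ε g v
  rw [h3]
  exact h.limUnder_eq

/-- the linear map `(t,x,v) ↦ (μ t, x, l v)` -/
private noncomputable def vsM (d : ℕ) (μ l : ℝ) : (ℝ × Vec d × Vec d) →ₗ[ℝ] (ℝ × Vec d × Vec d) where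
  toFun p := (μ * p.1, p.2.1, l • p.2.2)
  map_add' p q := by
    refine Prod.ext ?_ (Prod.ext ?_ ?_)
    · show μ * (p.1 + q.1) = μ * p.1 + μ * q.1
      ring
    · rfl
    · show l • (p.2.2 + q.2.2) = l • p.2.2 + l • q.2.2
      exact smul_add _ _ _
  map_smul' c p := by
    refine Prod.ext ?_ (Prod.ext ?_ ?_)
    · show μ * (c * p.1) = c * (μ * p.1)
      ring
    · rfl
    · show l • (c • p.2.2) = c • (l • p.2.2)
      exact smul_comm _ _ _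

private noncomputable def vsL (d : ℕ) (μ l : ℝ) : (ℝ × Vec d × Vec d) →L[ℝ] (ℝ × Vec d × Vec d) :=
  LinearMap.toContinuousLinearMap (vsM d μ l)

private lemma vsL_apply (μ l t : ℝ) (x v : Vec d) : vsL d μ l (t, x, v) = (μ * t, x, l • v) := rfl

private lemma unc_vs (μ l : ℝ) (f : ℝ → Vec d → Vec d → ℝ) :
    unc (fun t x v => f (μ * t) x (l • v)) = fun q => unc f (vsL d μ l q) := rfl

/-- polynomial weights under dilations -/
lemma wt_smul {l : ℝ} (hl : 0 < l) (N : ℕ) (v : Vec d) :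
    (1 + ‖v‖) ^ N ≤ (1 + l⁻¹) ^ N * (1 + ‖l • v‖) ^ N := by
  rw [← mul_pow]
  refine pow_le_pow_left₀ (by positivity) ?_ N
  rw [norm_smul, Real.norm_of_nonneg hl.le]
  have h1 : ‖v‖ = l⁻¹ * (l * ‖v‖) := by field_simp
  have h2 : 0 ≤ l * ‖v‖ := by positivity
  have h3 : 0 < l⁻¹ := inv_pos.2 hl
  nlinarith

/-- general operators: if `f` solves with `Q`, then `f(μ t, x, l v)`, `μ l = 1`, solves with `μ Q(μ t, x, l v)` -/
theorem cls_vs {T μ l : ℝ} (hμ : 0 < μ) (hl : 0 < l) (hμl : μ * l = 1)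
    {Q f : ℝ → Vec d → Vec d → ℝ} (hf : IsClassicalSol T Q f) :
    IsClassicalSol (T / μ) (fun t x v => μ * Q (μ * t) x (l • v)) (fun t x v => f (μ * t) x (l • v)) := by
  have hlt : ∀ {t : ℝ}, t < T / μ → μ * t < T := by
    intro t ht
    rw [lt_div_iff₀ hμ] at ht
    linarith [mul_comm t μ]
  have hIco : ∀ {t : ℝ}, t ∈ Ico 0 (T / μ) → μ * t ∈ Ico 0 T := fun ht =>
    ⟨mul_nonneg hμ.le ht.1, hlt ht.2⟩
  have hIoo : ∀ {t : ℝ}, t ∈ Ioo 0 (T / μ) → μ * t ∈ Ioo 0 T := fun ht =>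
    ⟨mul_pos hμ ht.1, hlt ht.2⟩
  have hU : IsOpen (Ioo (0 : ℝ) T ×ˢ (univ : Set (Vec d × Vec d))) := isOpen_Ioo.prod isOpen_univ
  refine ⟨?_, ?_, ?_, ?_, ?_, ?_, ?_⟩
  · intro t ht x v
    exact hf.nonneg _ (hIco ht) _ _
  · intro t ht x v i
    exact hf.periodic _ (hIco ht) _ _ i
  · unfold ContOn
    rw [unc_vs]
    refine hf.isCont.comp (vsL d μ l).continuous.continuousOn ?_
    rintro ⟨t, x, v⟩ hq
    rw [vsL_apply]
    exact ⟨hIco hq.1, mem_univ _⟩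
  · unfold C2On
    rw [unc_vs]
    refine hf.isC2.comp (vsL d μ l).contDiff.contDiffOn ?_
    rintro ⟨t, x, v⟩ hq
    rw [vsL_apply]
    exact ⟨hIoo hq.1, mem_univ _⟩
  · intro T₁ hT₁ N
    obtain ⟨C, hC⟩ := hf.decay (μ * T₁) (hlt hT₁) N
    refine ⟨(1 + l⁻¹) ^ N * C, fun t ht x v => ?_⟩
    have ht' : μ * t ∈ Icc 0 (μ * T₁) := ⟨mul_nonneg hμ.le ht.1, mul_le_mul_of_nonneg_left ht.2 hμ.le⟩
    have hw : 0 ≤ (1 + l⁻¹) ^ N := by
      have : 0 < l⁻¹ := inv_pos.2 hl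
      positivity
    have hf0 : 0 ≤ f (μ * t) x (l • v) :=
      hf.nonneg _ ⟨ht'.1, lt_of_le_of_lt ht'.2 (hlt hT₁)⟩ _ _
    calc (1 + ‖v‖) ^ N * f (μ * t) x (l • v)
        ≤ ((1 + l⁻¹) ^ N * (1 + ‖l • v‖) ^ N) * f (μ * t) x (l • v) :=
          mul_le_mul_of_nonneg_right (wt_smul hl N v) hf0
      _ = (1 + l⁻¹) ^ N * ((1 + ‖l • v‖) ^ N * f (μ * t) x (l • v)) := by ring
      _ ≤ (1 + l⁻¹) ^ N * C := mul_le_mul_of_nonneg_left (hC (μ * t) ht' x (l • v)) hw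
  · intro T₀ hT₀ T₁ hT₁ N
    obtain ⟨C, hC⟩ := hf.decay12 (μ * T₀) (mul_pos hμ hT₀) (μ * T₁) (hlt hT₁) N
    refine ⟨(‖vsL d μ l‖ + ‖vsL d μ l‖ ^ 2) * ((1 + l⁻¹) ^ N * C), fun t ht x v => ?_⟩
    have ht' : μ * t ∈ Icc (μ * T₀) (μ * T₁) :=
      ⟨mul_le_mul_of_nonneg_left ht.1 hμ.le, mul_le_mul_of_nonneg_left ht.2 hμ.le⟩
    have hp : vsL d μ l (t, x, v) ∈ Ioo (0 : ℝ) T ×ˢ (univ : Set (Vec d × Vec d)) := by
      rw [vsL_apply]
      exact ⟨⟨lt_of_lt_of_le (mul_pos hμ hT₀) ht'.1, lt_of_le_of_lt ht'.2 (hlt hT₁)⟩, mem_univ _⟩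
    have h3 : derivs12 (fun t x v => f (μ * t) x (l • v)) t x v ≤
        (‖vsL d μ l‖ + ‖vsL d μ l‖ ^ 2) * derivs12 f (μ * t) x (l • v) := by
      unfold derivs12
      rw [unc_vs]
      have := Pool.Agent.H25.PN.derivs_cmp (vsL d μ l) hU hf.isC2 hp
      rwa [vsL_apply] at this
    have h4 := hC (μ * t) ht' x (l • v)
    have hN : 0 ≤ (1 + ‖v‖) ^ N := by positivity
    have hL : 0 ≤ ‖vsL d μ l‖ + ‖vsL d μ l‖ ^ 2 := by positivity
    have hw : 0 ≤ (1 + l⁻¹) ^ N := by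
      have : 0 < l⁻¹ := inv_pos.2 hl
      positivity
    have hd0 : 0 ≤ derivs12 f (μ * t) x (l • v) := by
      unfold derivs12 derivs
      exact add_nonneg (norm_nonneg _) (ContinuousLinearMap.opNorm_nonneg _)
    calc (1 + ‖v‖) ^ N * derivs12 (fun t x v => f (μ * t) x (l • v)) t x v
        ≤ (1 + ‖v‖) ^ N * ((‖vsL d μ l‖ + ‖vsL d μ l‖ ^ 2) * derivs12 f (μ * t) x (l • v)) :=
          mul_le_mul_of_nonneg_left h3 hN
      _ = (‖vsL d μ l‖ + ‖vsL d μ l‖ ^ 2) * ((1 + ‖v‖) ^ N * derivs12 f (μ * t) x (l • v)) := by ring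
      _ ≤ (‖vsL d μ l‖ + ‖vsL d μ l‖ ^ 2) *
          (((1 + l⁻¹) ^ N * (1 + ‖l • v‖) ^ N) * derivs12 f (μ * t) x (l • v)) :=
          mul_le_mul_of_nonneg_left (mul_le_mul_of_nonneg_right (wt_smul hl N v) hd0) hL
      _ = (‖vsL d μ l‖ + ‖vsL d μ l‖ ^ 2) * ((1 + l⁻¹) ^ N *
          ((1 + ‖l • v‖) ^ N * derivs12 f (μ * t) x (l • v))) := by ring
      _ ≤ (‖vsL d μ l‖ + ‖vsL d μ l‖ ^ 2) * ((1 + l⁻¹) ^ N * C) :=
          mul_le_mul_of_nonneg_left (mul_le_mul_of_nonneg_left h4 hw) hL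
  · intro t ht x v
    have ht' := hIoo ht
    have e0 : ((μ * 1, v, l • (0 : Vec d)) : ℝ × Vec d × Vec d) = μ • ((1 : ℝ), l • v, (0 : Vec d)) := by
      refine Prod.ext ?_ (Prod.ext ?_ ?_)
      · simp
      · show v = μ • (l • v)
        rw [smul_smul, hμl, one_smul]
      · simp
    have e1 : transport (fun t x v => f (μ * t) x (l • v)) t x v =
        μ * transport f (μ * t) x (l • v) := by
      unfold transport
      rw [unc_vs, Pool.Agent.H25.PN.fderiv_cmp (vsL d μ l) hU hf.isC2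
        (by rw [vsL_apply]; exact ⟨ht', trivial⟩), vsL_apply, vsL_apply, e0, map_smul,
        smul_eq_mul]
    rw [e1, hf.solves (μ * t) ht' _ _]

/-- classical solutions are preserved when `Q` is changed to an equal operator for `t ∈ (0, T)` -/
lemma cls_congr {T : ℝ} {Q Q' f : ℝ → Vec d → Vec d → ℝ} (hf : IsClassicalSol T Q f)
    (h : ∀ t ∈ Ioo 0 T, ∀ x v, Q t x v = Q' t x v) : IsClassicalSol T Q' f :=
  ⟨hf.nonneg, hf.periodic, hf.isCont, hf.isC2, hf.decay, hf.decay12,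
    fun t ht x v => (hf.solves t ht x v).trans (h t ht x v)⟩

/-- velocity scaling of the Boltzmann equation -/
theorem boltz_vs (hd : 2 ≤ d) (hs : 0 < s) (hs1 : s < 1) (h0 : 0 ≤ γ + 2 * s) (h2 : γ + 2 * s ≤ 2)
    (hb : IsKernel d s b) {l : ℝ} (hl : 0 < l) {T : ℝ} {f : ℝ → Vec d → Vec d → ℝ}
    (hf : IsBoltzmannSol γ b T f) :
    IsBoltzmannSol γ (fun x => l ^ ((d : ℝ) + γ - 1) * b x) (l * T)
      (fun t x v => f (l⁻¹ * t) x (l • v)) := by
  have hμ : 0 < l⁻¹ := inv_pos.2 hl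
  have h := cls_vs hμ hl (inv_mul_cancel₀ hl.ne') hf
  have e : T / l⁻¹ = l * T := by
    rw [div_inv_eq_mul, mul_comm]
  rw [e] at h
  refine cls_congr h fun t ht x v => ?_
  have ht' : l⁻¹ * t ∈ Ioo 0 T := by
    refine ⟨mul_pos hμ ht.1, ?_⟩
    rw [inv_mul_lt_iff₀ hl]
    exact ht.2
  have hn : Nice (f (l⁻¹ * t) x) := IsClassicalSol.nice hf ht' x
  have hn2 : Nice fun u : Vec d => f (l⁻¹ * t) x (l • u) :=
    IsClassicalSol.nice (f := fun t x v => f (l⁻¹ * t) x (l • v)) h ht x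
  show l⁻¹ * boltzQ γ b (f (l⁻¹ * t) x) (l • v) = boltzQ γ (fun x => l ^ ((d : ℝ) + γ - 1) * b x) (fun u => f (l⁻¹ * t) x (l • u)) v
  rw [Pool.Agent.H25.PN.boltzQ_scale hd hs hs1 h0 h2 hb _ hn2, boltzQ_smul hd hs hs1 h0 h2 hb hl hn,
    ← mul_assoc, ← Real.rpow_add hl]
  have e2 : (d : ℝ) + γ - 1 + -((d : ℝ) + γ) = -1 := by ring
  rw [e2, Real.rpow_neg_one]

end Pool.Agent.H48.VS
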