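import Pool.Agent.H48.VS.Sol
import Pool.Agent.H48.PI.HydU
import Pool.Agent.H71.VM.CVThmV

/-!
# Gases of large Knudsen number (MP_c15324_an)

Initial values near `c h(x, v / l)` with `c l^(d + γ - 1) ≤ D`: `c⁻¹ f(t / l, x, l v)` solves the equation with the kernel
`c l^(d + γ - 1) b`, to which `Pool.Agent.H71.VM.dilute` applies.
-/

set_option autoImplicit false

open MeasureTheory Set Filter Topology Pool.Agent.H25.Kin Pool.Agent.H48.PL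
open Pool.Agent.H82.HF (SchT)

namespace Pool.Agent.H48.VS

variable {d : ℕ}

lemma wt_div {l : ℝ} (hl : 0 < l) (N : ℕ) (v : Vec d) :
    (1 + ‖v‖) ^ N ≤ (max 1 l) ^ N * (1 + ‖v‖ / l) ^ N := by
  rw [← mul_pow]
  refine pow_le_pow_left₀ (by positivity) ?_ N
  have h0 : 0 ≤ ‖v‖ / l := by positivity
  have h1 : ‖v‖ = l * (‖v‖ / l) := by field_simp
  have h2 : l * (‖v‖ / l) ≤ max 1 l * (‖v‖ / l) := mul_le_mul_of_nonneg_right (le_max_right _ _) h0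
  have h3 : (1 : ℝ) ≤ max 1 l := le_max_left _ _
  have h4 : max 1 l * (1 + ‖v‖ / l) = max 1 l + max 1 l * (‖v‖ / l) := by ring
  rw [h4]
  linarith

/-- **gases of large Knudsen number, without symmetry** -/
theorem two_par {s γ : ℝ} (hd : 2 ≤ d) (hs : 0 < s) (h0 : 0 < γ + 2 * s) (hs1 : 2 * s < 1)
    (h2 : γ + 2 * s ≤ 2) {b : ℝ → ℝ} (hb : IsKernel d s b) {h : Vec d → Vec d → ℝ} (hh : SchT h)
    (hn : ∀ x v, 0 ≤ h x v) (hv : ∀ x, 0 < ∫ v, h x v) (B : ℕ → ℝ) :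
    ∃ D > 0, ∃ ε > 0, ∃ U : ℕ → ℝ, ∀ c > 0, ∀ l > 0, c * l ^ ((d : ℝ) + γ - 1) ≤ D →
      ∃ m₀ > 0, ∃ M₀ : ℝ, ∀ (T : ℝ) (f : ℝ → Vec d → Vec d → ℝ), IsBoltzmannSol γ b T f →
      (∀ (N : ℕ) (x v : Vec d), (1 + ‖v‖ / l) ^ N * f 0 x v ≤ c * B N) →
      (∀ x v, |f 0 x v - c * h x (l⁻¹ • v)| ≤ c * ε) →
      ∀ t ∈ Ico 0 T, ∀ x, HydroBounds m₀ M₀ M₀ M₀ (f t x) ∧
        ∀ (N : ℕ) (v : Vec d), (1 + ‖v‖ / l) ^ N * f t x v ≤ c * U N := by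
  obtain ⟨D, hD, ε, hε, U, hU⟩ := Pool.Agent.H71.VM.dilute hd hs h0 hs1 h2 hb hh hn hv B
  refine ⟨D, hD, ε, hε, U, fun c hc l hl hcl => ?_⟩
  have hκ : 0 < l ^ ((d : ℝ) + γ - 1) := Real.rpow_pos_of_pos hl _
  have hδ : 0 < c * l ^ ((d : ℝ) + γ - 1) := mul_pos hc hκ
  have hs1' : s < 1 := by linarith
  obtain ⟨m, hm, hr⟩ := hU _ ⟨hδ, hcl⟩
  obtain ⟨M₀, hM₀⟩ := Pool.Agent.H48.PI.hydro_of_U d (fun N => (max 1 l) ^ N * (c * |U N|))
  have hld : 0 < l ^ d := pow_pos hl d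
  refine ⟨c * l ^ d * m, mul_pos (mul_pos hc hld) hm, M₀, fun T f hf hfB hfh => ?_⟩
  have hkc : IsKernel d s (fun x => c * b x) := Pool.Agent.H25.PN.kernel_scale hb hc
  have h3 := boltz_vs hd hs hs1' h0.le h2 hkc hl
    (Pool.Agent.H85.DG.amp_sol hd hs hs1' h0.le h2 hb hc hf)
  have hkk : (fun x => l ^ ((d : ℝ) + γ - 1) * ((fun x => c * b x) x)) =
      fun x => (c * l ^ ((d : ℝ) + γ - 1)) * b x := by
    funext x
    ring
  rw [hkk] at h3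
  have hnv : ∀ v : Vec d, ‖l • v‖ / l = ‖v‖ := fun v => by
    rw [norm_smul, Real.norm_of_nonneg hl.le]
    field_simp
  have hinv : ∀ v : Vec d, l⁻¹ • (l • v) = v := fun v => by
    rw [smul_smul, inv_mul_cancel₀ hl.ne', one_smul]
  have hinv' : ∀ v : Vec d, l • (l⁻¹ • v) = v := fun v => by
    rw [smul_smul, mul_inv_cancel₀ hl.ne', one_smul]
  have key := hr (l * T) _ h3 (fun N x v => by
      show (1 + ‖v‖) ^ N * (c⁻¹ * f (l⁻¹ * 0) x (l • v)) ≤ B N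
      have h4 := hfB N x (l • v)
      rw [hnv] at h4
      rw [mul_zero]
      have h5 : c * ((1 + ‖v‖) ^ N * (c⁻¹ * f 0 x (l • v))) ≤ c * B N := by
        calc c * ((1 + ‖v‖) ^ N * (c⁻¹ * f 0 x (l • v))) = (1 + ‖v‖) ^ N * f 0 x (l • v) := by
              field_simp
          _ ≤ c * B N := h4
      exact le_of_mul_le_mul_left h5 hc) (fun x v => by
      show |c⁻¹ * f (l⁻¹ * 0) x (l • v) - h x v| ≤ ε
      have h4 := hfh x (l • v)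
      rw [hinv] at h4
      rw [mul_zero]
      have h5 : f 0 x (l • v) - c * h x v = c * (c⁻¹ * f 0 x (l • v) - h x v) := by
        field_simp
      rw [h5, abs_mul, abs_of_pos hc] at h4
      exact le_of_mul_le_mul_left h4 hc)
  have hlt : ∀ t ∈ Ico 0 T, l * t ∈ Ico 0 (l * T) := fun t ht =>
    ⟨mul_nonneg hl.le ht.1, mul_lt_mul_of_pos_left ht.2 hl⟩
  have hback : ∀ t : ℝ, l⁻¹ * (l * t) = t := fun t => by field_simp
  have hdec : ∀ (N : ℕ), ∀ t ∈ Ico 0 T, ∀ x v, (1 + ‖v‖ / l) ^ N * f t x v ≤ c * U N := by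
    intro N t ht x v
    have h4 : (1 + ‖l⁻¹ • v‖) ^ N * (c⁻¹ * f (l⁻¹ * (l * t)) x (l • (l⁻¹ • v))) ≤ U N :=
      (key (l * t) (hlt t ht) x).1 N (l⁻¹ • v)
    rw [hback, hinv', ← hnv (l⁻¹ • v), hinv'] at h4
    have h5 := mul_le_mul_of_nonneg_left h4 hc.le
    calc (1 + ‖v‖ / l) ^ N * f t x v = c * ((1 + ‖v‖ / l) ^ N * (c⁻¹ * f t x v)) := by
          field_simp
      _ ≤ c * U N := h5
  have hdec1 : ∀ (N : ℕ), ∀ t ∈ Ico 0 T, ∀ x v,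
      (1 + ‖v‖) ^ N * f t x v ≤ (max 1 l) ^ N * (c * |U N|) := by
    intro N t ht x v
    have hmx : 0 ≤ (max 1 l) ^ N := pow_nonneg (le_trans zero_le_one (le_max_left _ _)) N
    calc (1 + ‖v‖) ^ N * f t x v ≤ ((max 1 l) ^ N * (1 + ‖v‖ / l) ^ N) * f t x v :=
          mul_le_mul_of_nonneg_right (wt_div hl N v) (hf.nonneg t ht x v)
      _ = (max 1 l) ^ N * ((1 + ‖v‖ / l) ^ N * f t x v) := by ring
      _ ≤ (max 1 l) ^ N * (c * U N) := mul_le_mul_of_nonneg_left (hdec N t ht x v) hmx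
      _ ≤ (max 1 l) ^ N * (c * |U N|) :=
          mul_le_mul_of_nonneg_left (mul_le_mul_of_nonneg_left (le_abs_self _) hc.le) hmx
  intro t ht x
  have hyd := hM₀ T _ f hf hdec1 t ht x
  have hmass : c * l ^ d * m ≤ ∫ v, f t x v := by
    have h4 : m ≤ ∫ v : Vec d, c⁻¹ * f (l⁻¹ * (l * t)) x (l • v) := (key (l * t) (hlt t ht) x).2
    rw [hback, integral_const_mul, Measure.integral_comp_smul volume (fun v => f t x v) l,
      Module.finrank_fin_fun, smul_eq_mul, abs_of_pos (inv_pos.2 hld)] at h4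
    calc c * l ^ d * m ≤ c * l ^ d * (c⁻¹ * ((l ^ d)⁻¹ * ∫ v, f t x v)) :=
          mul_le_mul_of_nonneg_left h4 (mul_pos hc hld).le
      _ = ∫ v, f t x v := by field_simp
  exact ⟨⟨hmass, hyd.1, hyd.2.1, hyd.2.2⟩, fun N v => hdec N t ht x v⟩

end Pool.Agent.H48.VS
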